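import Pool.Agent.W425.GN.Defs

/-!
# Project GN, part C3: Bernstein's theorem from the chain condition
-/

set_option autoImplicit false

namespace Pool.Agent.W930.GN

open Polynomial Pool.Agent.W425.GN

noncomputable section

/-! ### Sequences of polynomials -/

/-- the field -/
abbrev E0 : Type := FractionRing (Polynomial ℂ)

/-- sequences of polynomials -/
def Sq (n : ℕ) : Type := ℕ → MvPolynomial (Fin n) ℂ

instance (n : ℕ) : AddCommGroup (Sq n) :=
  inferInstanceAs (AddCommGroup (ℕ → MvPolynomial (Fin n) ℂ))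

instance (n : ℕ) : Module (Polynomial ℂ) (Sq n) where
  smul q φ := fun s => MvPolynomial.C (q.eval (s : ℂ)) * φ s
  one_smul φ := by
    funext s
    show MvPolynomial.C (eval (s : ℂ) 1) * φ s = φ s
    simp
  mul_smul a b φ := by
    funext s
    show MvPolynomial.C (eval (s : ℂ) (a * b)) * φ s =
      MvPolynomial.C (eval (s : ℂ) a) * (MvPolynomial.C (eval (s : ℂ) b) * φ s)
    rw [eval_mul, map_mul]; ring
  smul_zero a := by
    funext s
    show MvPolynomial.C (eval (s : ℂ) a) * 0 = 0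
    simp
  smul_add a x y := by
    funext s
    show MvPolynomial.C (eval (s : ℂ) a) * (x s + y s) =
      MvPolynomial.C (eval (s : ℂ) a) * x s + MvPolynomial.C (eval (s : ℂ) a) * y s
    ring
  add_smul a b x := by
    funext s
    show MvPolynomial.C (eval (s : ℂ) (a + b)) * x s =
      MvPolynomial.C (eval (s : ℂ) a) * x s + MvPolynomial.C (eval (s : ℂ) b) * x s
    rw [eval_add, map_add]; ring
  zero_smul x := by
    funext s
    show MvPolynomial.C (eval (s : ℂ) 0) * x s = 0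
    simp

theorem smul_sq {n : ℕ} (q : Polynomial ℂ) (φ : Sq n) (s : ℕ) :
    (q • φ) s = MvPolynomial.C (q.eval (s : ℂ)) * φ s := rfl

/-- the localised module -/
abbrev N0 (n : ℕ) : Type := LocalizedModule (nonZeroDivisors (Polynomial ℂ)) (Sq n)

/-- the localisation map -/
def jj {n : ℕ} : Sq n →ₗ[Polynomial ℂ] N0 n :=
  LocalizedModule.mkLinearMap (nonZeroDivisors (Polynomial ℂ)) (Sq n)

theorem jj_eq_iff {n : ℕ} (φ ψ : Sq n) : jj φ = jj ψ ↔ ∃ s0 : ℕ, ∀ s ≥ s0, φ s = ψ s := by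
  have h := IsLocalizedModule.eq_iff_exists (nonZeroDivisors (Polynomial ℂ))
    (LocalizedModule.mkLinearMap (nonZeroDivisors (Polynomial ℂ)) (Sq n)) (x₁ := φ) (x₂ := ψ)
  refine h.trans ⟨?_, ?_⟩
  · rintro ⟨⟨c, hc⟩, h⟩
    have hc0 : c ≠ 0 := nonZeroDivisors.ne_zero hc
    have hfin : {s : ℕ | c.eval (s : ℂ) = 0}.Finite := by
      have h1 : {z : ℂ | c.IsRoot z}.Finite := by
        refine (c.roots.toFinset.finite_toSet).subset fun z hz => ?_
        simpa [hc0] using hz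
      exact h1.preimage (Nat.cast_injective.injOn)
    obtain ⟨s0, hs0⟩ := hfin.bddAbove
    refine ⟨s0 + 1, fun s hs => ?_⟩
    have h1 : c.eval (s : ℂ) ≠ 0 := by
      intro h0
      have := hs0 (show s ∈ {s : ℕ | c.eval (s : ℂ) = 0} from h0)
      omega
    have h2 : MvPolynomial.C (c.eval (s : ℂ)) * φ s = MvPolynomial.C (c.eval (s : ℂ)) * ψ s :=
      congrFun h s
    refine mul_left_cancel₀ ?_ h2
    rwa [Ne, MvPolynomial.C_eq_zero]
  · rintro ⟨s0, h⟩
    have hne : (∏ k ∈ Finset.range s0, (X - C (k : ℂ)) : Polynomial ℂ) ≠ 0 :=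
      Finset.prod_ne_zero_iff.2 fun k _ => X_sub_C_ne_zero _
    refine ⟨⟨_, mem_nonZeroDivisors_of_ne_zero hne⟩, ?_⟩
    funext s
    show MvPolynomial.C ((∏ k ∈ Finset.range s0, (X - C (k : ℂ)) : Polynomial ℂ).eval (s : ℂ)) * φ s =
      MvPolynomial.C ((∏ k ∈ Finset.range s0, (X - C (k : ℂ)) : Polynomial ℂ).eval (s : ℂ)) * ψ s
    by_cases hs : s0 ≤ s
    · rw [h s hs]
    · have h0 : (∏ k ∈ Finset.range s0, (X - C (k : ℂ)) : Polynomial ℂ).eval (s : ℂ) = 0 := by
        rw [eval_prod]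
        exact Finset.prod_eq_zero (Finset.mem_range.2 (not_le.1 hs)) (by simp)
      rw [h0, map_zero, zero_mul, zero_mul]

/-- multiplication by `X i` -/
def mX {n : ℕ} (i : Fin n) : Sq n →ₗ[Polynomial ℂ] Sq n where
  toFun φ := fun s => MvPolynomial.X i * φ s
  map_add' φ ψ := by
    funext s
    show MvPolynomial.X i * (φ s + ψ s) = MvPolynomial.X i * φ s + MvPolynomial.X i * ψ s
    ring
  map_smul' q φ := by
    funext s
    show MvPolynomial.X i * (MvPolynomial.C (q.eval (s : ℂ)) * φ s) =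
      MvPolynomial.C (q.eval (s : ℂ)) * (MvPolynomial.X i * φ s)
    ring

/-- the derivative -/
def mD {n : ℕ} (i : Fin n) : Sq n →ₗ[Polynomial ℂ] Sq n where
  toFun φ := fun s => MvPolynomial.pderiv i (φ s)
  map_add' φ ψ := by
    funext s
    show MvPolynomial.pderiv i (φ s + ψ s) = MvPolynomial.pderiv i (φ s) + MvPolynomial.pderiv i (ψ s)
    rw [map_add]
  map_smul' q φ := by
    funext s
    show MvPolynomial.pderiv i (MvPolynomial.C (q.eval (s : ℂ)) * φ s) =
      MvPolynomial.C (q.eval (s : ℂ)) * MvPolynomial.pderiv i (φ s)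
    rw [MvPolynomial.pderiv_C_mul]

theorem jj_mk {n : ℕ} (m : Sq n) (s : nonZeroDivisors (Polynomial ℂ)) :
    (LocalizedModule.mk m s : N0 n) = (Localization.mk 1 s : E0) • jj m := by
  have h := LocalizedModule.mk_smul_mk (S := nonZeroDivisors (Polynomial ℂ)) (1 : Polynomial ℂ) m s 1
  rw [one_smul, mul_one] at h
  exact h.symm

theorem ext_jj {n : ℕ} (A B : N0 n →ₗ[E0] N0 n) (h : ∀ φ, A (jj φ) = B (jj φ)) (w : N0 n) :
    A w = B w := by
  refine LocalizedModule.induction_on (fun m s => ?_) w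
  rw [jj_mk, map_smul, map_smul, h]

/-- the operators on the localised module -/
def XX {n : ℕ} (i : Fin n) : N0 n →ₗ[E0] N0 n :=
  LocalizedModule.map (nonZeroDivisors (Polynomial ℂ)) (mX i)

/-- the operators on the localised module -/
def DDi {n : ℕ} (i : Fin n) : N0 n →ₗ[E0] N0 n :=
  LocalizedModule.map (nonZeroDivisors (Polynomial ℂ)) (mD i)

theorem XX_jj {n : ℕ} (i : Fin n) (φ : Sq n) : XX i (jj φ) = jj (mX i φ) :=
  LocalizedModule.map_mk _ _ _ _

theorem DDi_jj {n : ℕ} (i : Fin n) (φ : Sq n) : DDi i (jj φ) = jj (mD i φ) :=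
  LocalizedModule.map_mk _ _ _ _

theorem mX_mX {n : ℕ} (i j : Fin n) (φ : Sq n) : mX i (mX j φ) = mX j (mX i φ) := by
  funext t
  show MvPolynomial.X i * (MvPolynomial.X j * φ t) = MvPolynomial.X j * (MvPolynomial.X i * φ t)
  ring

theorem pd_comm {n : ℕ} (i j : Fin n) (p : MvPolynomial (Fin n) ℂ) :
    MvPolynomial.pderiv i (MvPolynomial.pderiv j p) =
      MvPolynomial.pderiv j (MvPolynomial.pderiv i p) := by
  have h (D1 D2 : Derivation ℂ (MvPolynomial (Fin n) ℂ) (MvPolynomial (Fin n) ℂ))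
      (h1 : D1 = MvPolynomial.pderiv i) (h2 : D2 = MvPolynomial.pderiv j) : ⁅D1, D2⁆ = 0 := by
    apply MvPolynomial.derivation_ext
    intro k
    rw [Derivation.commutator_apply, h1, h2, MvPolynomial.pderiv_X, MvPolynomial.pderiv_X]
    simp only [Pi.single_apply]
    split_ifs <;> simp
  have h2 := DFunLike.congr_fun (h _ _ rfl rfl) p
  rw [Derivation.commutator_apply, Derivation.zero_apply, sub_eq_zero] at h2
  exact h2

theorem mD_mD {n : ℕ} (i j : Fin n) (φ : Sq n) : mD i (mD j φ) = mD j (mD i φ) := by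
  funext t
  exact pd_comm i j (φ t)

theorem pd_X {n : ℕ} (i j : Fin n) (p : MvPolynomial (Fin n) ℂ) :
    MvPolynomial.pderiv i (MvPolynomial.X j * p) =
      MvPolynomial.X j * MvPolynomial.pderiv i p + if i = j then p else 0 := by
  rw [MvPolynomial.pderiv_mul]
  by_cases h : i = j
  · subst h
    rw [MvPolynomial.pderiv_X_self, if_pos rfl]
    ring
  · rw [MvPolynomial.pderiv_X_of_ne (Ne.symm h), if_neg h]
    ring

theorem mD_mX {n : ℕ} (i j : Fin n) (φ : Sq n) :
    mD i (mX j φ) = mX j (mD i φ) + if i = j then φ else 0 := by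
  funext t
  have h := pd_X i j (φ t)
  by_cases hij : i = j
  · rw [if_pos hij] at h ⊢
    exact h
  · rw [if_neg hij] at h ⊢
    exact h

/-- the module over the Weyl algebra -/
def DD (n : ℕ) : WMod n E0 (N0 n) where
  x i := XX i
  d i := DDi i
  xx i j w := by
    refine ext_jj (XX i ∘ₗ XX j) (XX j ∘ₗ XX i) (fun φ => ?_) w
    rw [LinearMap.comp_apply, LinearMap.comp_apply, XX_jj, XX_jj, XX_jj, XX_jj, mX_mX]
  dd i j w := by
    refine ext_jj (DDi i ∘ₗ DDi j) (DDi j ∘ₗ DDi i) (fun φ => ?_) w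
    rw [LinearMap.comp_apply, LinearMap.comp_apply, DDi_jj, DDi_jj, DDi_jj, DDi_jj, mD_mD]
  dx i j w := by
    by_cases hij : i = j
    · rw [if_pos hij]
      refine ext_jj (DDi i ∘ₗ XX j) (XX j ∘ₗ DDi i + LinearMap.id) (fun φ => ?_) w
      rw [LinearMap.comp_apply, LinearMap.add_apply, LinearMap.comp_apply, XX_jj, DDi_jj, DDi_jj,
        XX_jj, mD_mX, if_pos hij, map_add, LinearMap.id_apply]
    · rw [if_neg hij, add_zero]
      refine ext_jj (DDi i ∘ₗ XX j) (XX j ∘ₗ DDi i) (fun φ => ?_) w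
      rw [LinearMap.comp_apply, LinearMap.comp_apply, XX_jj, DDi_jj, DDi_jj,
        XX_jj, mD_mX, if_neg hij, add_zero]

/-! ### The filtration -/

/-- all exponents at most `a` -/
def bx {n : ℕ} (a : ℕ) (p : MvPolynomial (Fin n) ℂ) : Prop := ∀ i, p.degreeOf i ≤ a

theorem bx_mul {n a b : ℕ} {p q : MvPolynomial (Fin n) ℂ} (hp : bx a p) (hq : bx b q) :
    bx (a + b) (p * q) := fun i =>
  (MvPolynomial.degreeOf_mul_le i p q).trans (add_le_add (hp i) (hq i))

theorem bx_mono {n a b : ℕ} {p : MvPolynomial (Fin n) ℂ} (hp : bx a p) (h : a ≤ b) : bx b p :=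
  fun i => (hp i).trans h

theorem bx_monomial {n a : ℕ} (m : Fin n →₀ ℕ) (c : ℂ) (h : ∀ i, m i ≤ a) :
    bx a (MvPolynomial.monomial m c) := by
  intro i
  rw [MvPolynomial.degreeOf_le_iff]
  intro m' hm'
  have := Finset.mem_singleton.1 (MvPolynomial.support_monomial_subset hm')
  rw [this]
  exact h i

theorem bx_X {n : ℕ} (i : Fin n) : bx 1 (MvPolynomial.X i : MvPolynomial (Fin n) ℂ) := by
  refine bx_monomial (Finsupp.single i 1) 1 fun j => ?_
  rw [Finsupp.single_apply]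
  split_ifs <;> simp

theorem bx_sum {n a : ℕ} {ι : Type} (s : Finset ι) (g : ι → MvPolynomial (Fin n) ℂ)
    (h : ∀ i ∈ s, bx a (g i)) : bx a (∑ i ∈ s, g i) := by
  intro i
  rw [MvPolynomial.degreeOf_le_iff]
  intro m hm
  classical
  obtain ⟨j, hj, hm2⟩ := Finset.mem_biUnion.1 (MvPolynomial.support_sum hm)
  exact (MvPolynomial.degreeOf_le_iff.1 (h j hj i)) m hm2

theorem bx_pderiv {n a : ℕ} {p : MvPolynomial (Fin n) ℂ} (hp : bx a p) (i : Fin n) :
    bx a (MvPolynomial.pderiv i p) := by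
  rw [p.as_sum, map_sum]
  refine bx_sum _ _ fun m hm => ?_
  rw [MvPolynomial.pderiv_monomial]
  refine bx_monomial _ _ fun j => ?_
  have h1 : m j ≤ a := (MvPolynomial.degreeOf_le_iff.1 (hp j)) m hm
  have h2 : (m - Finsupp.single i 1 : Fin n →₀ ℕ) j ≤ m j := by
    rw [Finsupp.tsub_apply]
    exact Nat.sub_le _ _
  exact h2.trans h1

theorem bx_self {n : ℕ} (p : MvPolynomial (Fin n) ℂ) : bx p.totalDegree p := fun i =>
  MvPolynomial.degreeOf_le_totalDegree p i

theorem bx_pow {n a : ℕ} {p : MvPolynomial (Fin n) ℂ} (hp : bx a p) (k : ℕ) :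
    bx (a * k) (p ^ k) := by
  induction k with
  | zero =>
    rw [pow_zero]
    intro i
    rw [MvPolynomial.degreeOf_one]
    exact Nat.zero_le _
  | succ k ih =>
    rw [pow_succ]
    exact bx_mono (bx_mul ih hp) (by rw [Nat.mul_succ])

/-- the generators -/
def gen {n : ℕ} (f : MvPolynomial (Fin n) ℂ) (v : ℕ) (p : MvPolynomial (Fin n) ℂ) : Sq n :=
  fun s => p * f ^ (s - v)

/-- the filtration -/
def Gm {n : ℕ} (f : MvPolynomial (Fin n) ℂ) (v : ℕ) : Submodule E0 (N0 n) :=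
  Submodule.span E0 (Set.range fun g : Fin n → Fin (v * (f.totalDegree + 1) + 1) =>
    jj (gen f v (MvPolynomial.monomial (Finsupp.equivFunOnFinite.symm fun i => (g i : ℕ)) 1)))

theorem poly_smul_mem {n : ℕ} (S : Submodule E0 (N0 n)) (q : Polynomial ℂ) {x : N0 n} (hx : x ∈ S) :
    q • x ∈ S := S.smul_of_tower_mem q hx

theorem mem_Gm {n : ℕ} (f : MvPolynomial (Fin n) ℂ) (v : ℕ) {p : MvPolynomial (Fin n) ℂ}
    (hp : bx (v * (f.totalDegree + 1)) p) : jj (gen f v p) ∈ Gm f v := by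
  have h1 : gen f v p = ∑ m ∈ p.support, (C (p.coeff m) : Polynomial ℂ) •
      gen f v (MvPolynomial.monomial m 1) := by
    funext s
    have h2 : (∑ m ∈ p.support, (C (p.coeff m) : Polynomial ℂ) •
        gen f v (MvPolynomial.monomial m 1)) s = ∑ m ∈ p.support, ((C (p.coeff m) : Polynomial ℂ) •
        gen f v (MvPolynomial.monomial m 1)) s := Finset.sum_apply s _ _
    rw [h2]
    simp only [smul_sq, eval_C]
    show p * f ^ (s - v) = ∑ m ∈ p.support, MvPolynomial.C (p.coeff m) *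
      (MvPolynomial.monomial m 1 * f ^ (s - v))
    conv_lhs => rw [p.as_sum]
    rw [Finset.sum_mul]
    refine Finset.sum_congr rfl fun m _ => ?_
    rw [← mul_assoc, MvPolynomial.C_mul_monomial, mul_one]
  rw [h1, map_sum]
  refine Submodule.sum_mem _ fun m hm => ?_
  rw [map_smul]
  refine poly_smul_mem _ _ (Submodule.subset_span ⟨fun i => ⟨m i, ?_⟩, ?_⟩)
  · have := (MvPolynomial.degreeOf_le_iff.1 (hp i)) m hm
    omega
  · have h3 : (Finsupp.equivFunOnFinite.symm fun i => m i) = m := by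
      ext i
      rfl
    show jj (gen f v (MvPolynomial.monomial (Finsupp.equivFunOnFinite.symm fun i => m i) 1)) = _
    rw [h3]

theorem gen_step {n : ℕ} (f : MvPolynomial (Fin n) ℂ) (v : ℕ) (p : MvPolynomial (Fin n) ℂ) :
    jj (gen f v p) = jj (gen f (v + 1) (p * f)) := by
  rw [jj_eq_iff]
  refine ⟨v + 1, fun s hs => ?_⟩
  show p * f ^ (s - v) = p * f * f ^ (s - (v + 1))
  rw [show s - v = (s - (v + 1)) + 1 by omega, pow_succ]
  ring

theorem Gm_gen {n : ℕ} {f : MvPolynomial (Fin n) ℂ} {v : ℕ} {Q : N0 n → Prop}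
    (h0 : Q 0) (hadd : ∀ x y, Q x → Q y → Q (x + y)) (hsm : ∀ (e : E0) x, Q x → Q (e • x))
    (hg : ∀ p : MvPolynomial (Fin n) ℂ, bx (v * (f.totalDegree + 1)) p → Q (jj (gen f v p)))
    {w : N0 n} (hw : w ∈ Gm f v) : Q w := by
  induction hw using Submodule.span_induction with
  | mem x hx =>
    obtain ⟨g, rfl⟩ := hx
    refine hg _ (bx_monomial _ _ fun i => ?_)
    have := (g i).2
    show (g i : ℕ) ≤ _
    omega
  | zero => exact h0
  | add x y _ _ hx hy => exact hadd x y hx hy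
  | smul e x _ hx => exact hsm e x hx

theorem Gm_mono {n : ℕ} (f : MvPolynomial (Fin n) ℂ) (v : ℕ) : Gm f v ≤ Gm f (v + 1) := by
  intro w hw
  refine Gm_gen (Q := fun w => w ∈ Gm f (v + 1)) (Submodule.zero_mem _)
    (fun x y hx hy => Submodule.add_mem _ hx hy) (fun e x hx => Submodule.smul_mem _ e hx) ?_ hw
  intro p hp
  show jj (gen f v p) ∈ Gm f (v + 1)
  rw [gen_step]
  refine mem_Gm f (v + 1) (bx_mono (bx_mul hp (bx_self f)) ?_)
  nlinarith

theorem Gm_x {n : ℕ} (f : MvPolynomial (Fin n) ℂ) (v : ℕ) (i : Fin n) {w : N0 n}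
    (hw : w ∈ Gm f v) : XX i w ∈ Gm f (v + 1) := by
  refine Gm_gen (Q := fun w => XX i w ∈ Gm f (v + 1)) ?_ ?_ ?_ ?_ hw
  · rw [map_zero]; exact Submodule.zero_mem _
  · intro x y hx hy
    rw [map_add]; exact Submodule.add_mem _ hx hy
  · intro e x hx
    rw [map_smul]; exact Submodule.smul_mem _ e hx
  · intro p hp
    have h1 : XX i (jj (gen f v p)) = jj (gen f v (MvPolynomial.X i * p)) := by
      rw [XX_jj]
      congr 1
      funext s
      show MvPolynomial.X i * (p * f ^ (s - v)) = MvPolynomial.X i * p * f ^ (s - v)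
      ring
    rw [h1, gen_step]
    refine mem_Gm f (v + 1) (bx_mono (bx_mul (bx_mul (bx_X i) hp) (bx_self f)) ?_)
    nlinarith

theorem Gm_d {n : ℕ} (f : MvPolynomial (Fin n) ℂ) (v : ℕ) (i : Fin n) {w : N0 n}
    (hw : w ∈ Gm f v) : DDi i w ∈ Gm f (v + 1) := by
  refine Gm_gen (Q := fun w => DDi i w ∈ Gm f (v + 1)) ?_ ?_ ?_ ?_ hw
  · rw [map_zero]; exact Submodule.zero_mem _
  · intro x y hx hy
    rw [map_add]; exact Submodule.add_mem _ hx hy
  · intro e x hx
    rw [map_smul]; exact Submodule.smul_mem _ e hx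
  · intro p hp
    have h1 : DDi i (jj (gen f v p)) = jj (gen f (v + 1) (MvPolynomial.pderiv i p * f)) +
        (X - C (v : ℂ) : Polynomial ℂ) • jj (gen f (v + 1) (p * MvPolynomial.pderiv i f)) := by
      rw [DDi_jj, ← map_smul, ← map_add, jj_eq_iff]
      refine ⟨v + 1, fun s hs => ?_⟩
      show MvPolynomial.pderiv i (p * f ^ (s - v)) =
        MvPolynomial.pderiv i p * f * f ^ (s - (v + 1)) +
          MvPolynomial.C ((X - C (v : ℂ) : Polynomial ℂ).eval (s : ℂ)) *
            (p * MvPolynomial.pderiv i f * f ^ (s - (v + 1)))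
      obtain ⟨t, rfl⟩ := Nat.exists_eq_add_of_le hs
      rw [show v + 1 + t - v = t + 1 by omega, show v + 1 + t - (v + 1) = t by omega,
        MvPolynomial.pderiv_mul, MvPolynomial.pderiv_pow]
      have h2 : (X - C (v : ℂ) : Polynomial ℂ).eval ((v + 1 + t : ℕ) : ℂ) = ((t + 1 : ℕ) : ℂ) := by
        rw [eval_sub, eval_X, eval_C]
        push_cast
        ring
      rw [h2, map_natCast, Nat.add_sub_cancel, pow_succ]
      ring
    rw [h1]
    refine Submodule.add_mem _ (mem_Gm f (v + 1) (bx_mono (bx_mul (bx_pderiv hp i) (bx_self f)) ?_))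
      (poly_smul_mem _ _ (mem_Gm f (v + 1) (bx_mono (bx_mul hp (bx_pderiv (bx_self f) i)) ?_)))
    · nlinarith
    · nlinarith

theorem Gm_fin {n : ℕ} (f : MvPolynomial (Fin n) ℂ) (v : ℕ) : Module.Finite E0 (Gm f v) :=
  Module.Finite.span_of_finite E0 (Set.finite_range _)

theorem Gm_rank {n : ℕ} (f : MvPolynomial (Fin n) ℂ) (v : ℕ) :
    Module.finrank E0 (Gm f v) ≤ (f.totalDegree + 1) ^ n * (v + 1) ^ n := by
  have h1 : Module.finrank E0 (Gm f v) ≤
      Fintype.card (Fin n → Fin (v * (f.totalDegree + 1) + 1)) := finrank_range_le_card _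
  refine h1.trans ?_
  rw [Fintype.card_fun, Fintype.card_fin, Fintype.card_fin, ← mul_pow]
  refine Nat.pow_le_pow_left ?_ n
  nlinarith

/-! ### The submodules generated by the powers of `f` -/

/-- the sequence of an operator -/
def acts {n : ℕ} (f : MvPolynomial (Fin n) ℂ) (k : ℕ) (P : MvPolynomial (Sy n) ℂ) : Sq n :=
  fun s => act P s (f ^ (s + k))

/-- the submodules -/
def Lm {n : ℕ} (f : MvPolynomial (Fin n) ℂ) (k : ℕ) : Submodule E0 (N0 n) :=
  Submodule.span E0 (Set.range fun P : MvPolynomial (Sy n) ℂ => jj (acts f k P))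

theorem act_add {n : ℕ} (P Q : MvPolynomial (Sy n) ℂ) (s : ℕ) (φ : MvPolynomial (Fin n) ℂ) :
    act (P + Q) s φ = act P s φ + act Q s φ := by
  unfold act
  rw [map_add]

theorem act_sub {n : ℕ} (P Q : MvPolynomial (Sy n) ℂ) (s : ℕ) (φ : MvPolynomial (Fin n) ℂ) :
    act (P - Q) s φ = act P s φ - act Q s φ := by
  unfold act
  rw [map_sub]

theorem act_C_mul {n : ℕ} (c : ℂ) (P : MvPolynomial (Sy n) ℂ) (s : ℕ) (φ : MvPolynomial (Fin n) ℂ) :
    act (MvPolynomial.C c * P) s φ = MvPolynomial.C c * act P s φ := by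
  unfold act
  rw [← MvPolynomial.smul_eq_C_mul, map_smul, MvPolynomial.smul_eq_C_mul]

/-- multiplication of a symbol by a polynomial in `s` -/
def qs {n : ℕ} (q : Polynomial ℂ) : MvPolynomial (Sy n) ℂ :=
  aeval (MvPolynomial.X none : MvPolynomial (Sy n) ℂ) q

theorem act_qs (hA1 : TaskA1) {n : ℕ} (q : Polynomial ℂ) (P : MvPolynomial (Sy n) ℂ) (s : ℕ)
    (φ : MvPolynomial (Fin n) ℂ) :
    act (qs q * P) s φ = MvPolynomial.C (q.eval (s : ℂ)) * act P s φ := by
  unfold qs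
  induction q using Polynomial.induction_on with
  | C a =>
    rw [aeval_C, eval_C]
    exact act_C_mul a P s φ
  | add p q hp hq =>
    rw [map_add, add_mul, act_add, hp, hq, eval_add, map_add, add_mul]
  | monomial m a h =>
    have h1 : aeval (MvPolynomial.X none : MvPolynomial (Sy n) ℂ) (C a * X ^ (m + 1)) * P =
        ls (aeval (MvPolynomial.X none : MvPolynomial (Sy n) ℂ) (C a * X ^ m) * P) := by
      unfold ls
      rw [pow_succ, ← mul_assoc, map_mul, aeval_X]
      ring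
    rw [h1, (hA1 _ s φ).2.1, h]
    have h2 : (C a * X ^ (m + 1) : Polynomial ℂ).eval (s : ℂ) =
        (s : ℂ) * (C a * X ^ m : Polynomial ℂ).eval (s : ℂ) := by
      rw [pow_succ, ← mul_assoc, eval_mul, eval_X]
      ring
    rw [h2, map_mul, map_natCast]
    ring

theorem Lm_gen {n : ℕ} {f : MvPolynomial (Fin n) ℂ} {k : ℕ} {Q : N0 n → Prop}
    (h0 : Q 0) (hadd : ∀ x y, Q x → Q y → Q (x + y)) (hsm : ∀ (e : E0) x, Q x → Q (e • x))
    (hg : ∀ P : MvPolynomial (Sy n) ℂ, Q (jj (acts f k P)))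
    {w : N0 n} (hw : w ∈ Lm f k) : Q w := by
  induction hw using Submodule.span_induction with
  | mem x hx =>
    obtain ⟨P, rfl⟩ := hx
    exact hg P
  | zero => exact h0
  | add x y _ _ hx hy => exact hadd x y hx hy
  | smul e x _ hx => exact hsm e x hx

theorem act_mem {n : ℕ} (f : MvPolynomial (Fin n) ℂ) (k : ℕ) (P : MvPolynomial (Sy n) ℂ) :
    jj (acts f k P) ∈ Lm f k := Submodule.subset_span ⟨P, rfl⟩

theorem Lm_mono (hA2 : TaskA2) {n : ℕ} (f : MvPolynomial (Fin n) ℂ) (k : ℕ) :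
    Lm f (k + 1) ≤ Lm f k := by
  obtain ⟨L, hL⟩ := hA2 f
  intro w hw
  refine Lm_gen (Q := fun w => w ∈ Lm f k) (Submodule.zero_mem _)
    (fun x y hx hy => Submodule.add_mem _ hx hy) (fun e x hx => Submodule.smul_mem _ e hx) ?_ hw
  intro P
  have h1 : acts f (k + 1) P = acts f k (L P) := by
    funext s
    show act P s (f ^ (s + (k + 1))) = act (L P) s (f ^ (s + k))
    rw [hL, ← pow_succ', add_assoc]
  show jj (acts f (k + 1) P) ∈ Lm f k
  rw [h1]
  exact act_mem f k (L P)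

/-- the powers of `f` -/
def fp {n : ℕ} (f : MvPolynomial (Fin n) ℂ) (k : ℕ) : Sq n := fun s => f ^ (s + k)

theorem Lm_x (hA1 : TaskA1) {n : ℕ} (f : MvPolynomial (Fin n) ℂ) (k : ℕ) (i : Fin n) {w : N0 n}
    (hw : w ∈ Lm f k) : XX i w ∈ Lm f k := by
  refine Lm_gen (Q := fun w => XX i w ∈ Lm f k) ?_ ?_ ?_ ?_ hw
  · rw [map_zero]; exact Submodule.zero_mem _
  · intro x y hx hy
    rw [map_add]; exact Submodule.add_mem _ hx hy
  · intro e x hx
    rw [map_smul]; exact Submodule.smul_mem _ e hx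
  · intro P
    have h1 : mX i (acts f k P) = acts f k (lx i P) := by
      funext s
      exact ((hA1 P s (f ^ (s + k))).2.2.1 i).symm
    show XX i (jj (acts f k P)) ∈ Lm f k
    rw [XX_jj, h1]
    exact act_mem f k _

theorem Lm_d (hA1 : TaskA1) {n : ℕ} (f : MvPolynomial (Fin n) ℂ) (k : ℕ) (i : Fin n) {w : N0 n}
    (hw : w ∈ Lm f k) : DDi i w ∈ Lm f k := by
  refine Lm_gen (Q := fun w => DDi i w ∈ Lm f k) ?_ ?_ ?_ ?_ hw
  · rw [map_zero]; exact Submodule.zero_mem _
  · intro x y hx hy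
    rw [map_add]; exact Submodule.add_mem _ hx hy
  · intro e x hx
    rw [map_smul]; exact Submodule.smul_mem _ e hx
  · intro P
    have h1 : mD i (acts f k P) = acts f k (ld i P) := by
      funext s
      exact ((hA1 P s (f ^ (s + k))).2.2.2.1 i).symm
    show DDi i (jj (acts f k P)) ∈ Lm f k
    rw [DDi_jj, h1]
    exact act_mem f k _

theorem smul_case {n : ℕ} (e : E0) (a b q : Polynomial ℂ)
    (hab : e * algebraMap (Polynomial ℂ) E0 b = algebraMap (Polynomial ℂ) E0 a) (x : N0 n) :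
    (q * b) • (e • x) = a • (q • x) := by
  have h1 : (q * b) • e = (a * q) • (1 : E0) := by
    rw [Algebra.smul_def, Algebra.smul_def, mul_one, map_mul, map_mul, ← hab]
    ring
  calc (q * b) • (e • x) = ((q * b) • e) • x := (smul_assoc (q * b) e x).symm
    _ = ((a * q) • (1 : E0)) • x := by rw [h1]
    _ = (a * q) • ((1 : E0) • x) := smul_assoc (a * q) (1 : E0) x
    _ = (a * q) • x := by rw [one_smul]
    _ = a • (q • x) := mul_smul a q x

theorem smul_acts (hA1 : TaskA1) {n : ℕ} (f : MvPolynomial (Fin n) ℂ) (k : ℕ) (q : Polynomial ℂ)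
    (P : MvPolynomial (Sy n) ℂ) : q • jj (acts f k P) = jj (acts f k (qs q * P)) := by
  have h : q • acts f k P = acts f k (qs q * P) := by
    funext s
    exact (act_qs hA1 q P s (f ^ (s + k))).symm
  rw [← h]
  exact (map_smul jj q (acts f k P)).symm

/-- fractions of sequences of operators -/
def Den {n : ℕ} (f : MvPolynomial (Fin n) ℂ) (k : ℕ) (w : N0 n) : Prop :=
  ∃ q : Polynomial ℂ, q ≠ 0 ∧ ∃ P, q • w = jj (acts f k P)

theorem den_zero {n : ℕ} (f : MvPolynomial (Fin n) ℂ) (k : ℕ) : Den f k 0 := by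
  refine ⟨1, one_ne_zero, 0, ?_⟩
  have : acts f k 0 = 0 := by
    funext s
    show act 0 s (f ^ (s + k)) = 0
    unfold act
    rw [map_zero]
  rw [this, smul_zero]
  exact (map_zero jj).symm

theorem den_add (hA1 : TaskA1) {n : ℕ} (f : MvPolynomial (Fin n) ℂ) (k : ℕ) (x y : N0 n)
    (hx : Den f k x) (hy : Den f k y) : Den f k (x + y) := by
  obtain ⟨q1, h1, P1, e1⟩ := hx
  obtain ⟨q2, h2, P2, e2⟩ := hy
  refine ⟨q2 * q1, mul_ne_zero h2 h1, qs q2 * P1 + qs q1 * P2, ?_⟩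
  have h3 : acts f k (qs q2 * P1 + qs q1 * P2) = acts f k (qs q2 * P1) + acts f k (qs q1 * P2) := by
    funext s
    exact act_add _ _ s (f ^ (s + k))
  have h4 : jj (acts f k (qs q2 * P1) + acts f k (qs q1 * P2)) =
      jj (acts f k (qs q2 * P1)) + jj (acts f k (qs q1 * P2)) := map_add jj _ _
  rw [h3, h4, ← smul_acts hA1, ← smul_acts hA1, ← e1, ← e2, smul_add]
  congr 1
  · exact mul_smul q2 q1 x
  · rw [mul_comm]
    exact mul_smul q1 q2 y

theorem den_smul (hA1 : TaskA1) {n : ℕ} (f : MvPolynomial (Fin n) ℂ) (k : ℕ) (e : E0) (x : N0 n)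
    (hx : Den f k x) : Den f k (e • x) := by
  obtain ⟨q, h1, P, e1⟩ := hx
  obtain ⟨⟨a, b⟩, hab⟩ := IsLocalization.surj (nonZeroDivisors (Polynomial ℂ)) e
  refine ⟨q * b, mul_ne_zero h1 (nonZeroDivisors.ne_zero b.2), qs a * P, ?_⟩
  rw [← smul_acts hA1, ← e1]
  exact smul_case e a b q hab x

theorem Lm_den (hA1 : TaskA1) {n : ℕ} (f : MvPolynomial (Fin n) ℂ) (k : ℕ) {w : N0 n}
    (hw : w ∈ Lm f k) : Den f k w :=
  Lm_gen (den_zero f k) (den_add hA1 f k) (den_smul hA1 f k)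
    (fun P => ⟨1, one_ne_zero, P, one_smul _ _⟩) hw

/-! ### Assembly -/

theorem c3 : TaskC3 := by
  intro hC1 hC2 hA1 hA2 hA3 hA4 n f hf
  -- the chain condition
  have hCZ : CharZero E0 := inferInstance
  have hkey : ∃ k, jj (fp f k) ∈ Lm f (k + 1) := by
    refine hC2 hC1 (DD n) (Gm f) ((f.totalDegree + 1) ^ n) (Gm_mono f)
      (fun v w hw i => ⟨Gm_x f v i hw, Gm_d f v i hw⟩) (Gm_fin f) (Gm_rank f) (Lm f)
      (Lm_mono hA2 f) (fun k w hw i => ⟨Lm_x hA1 f k i hw, Lm_d hA1 f k i hw⟩)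
      (fun k => jj (fp f k)) (fun k => ?_) (fun k => ?_)
    · have h1 : fp f k = acts f k 1 := by
        funext s
        exact (hA1 1 s (f ^ (s + k))).1.symm
      show jj (fp f k) ∈ Lm f k
      rw [h1]
      exact act_mem f k 1
    · refine ⟨f.totalDegree * k, ?_⟩
      have h1 : jj (fp f k) =
          jj (gen f (f.totalDegree * k) (f ^ (k + f.totalDegree * k))) := by
        rw [jj_eq_iff]
        refine ⟨f.totalDegree * k, fun s hs => ?_⟩
        show f ^ (s + k) = f ^ (k + f.totalDegree * k) * f ^ (s - f.totalDegree * k)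
        rw [← pow_add]
        congr 1
        omega
      show jj (fp f k) ∈ Gm f (f.totalDegree * k)
      rw [h1]
      refine mem_Gm f _ (bx_mono (bx_pow (bx_self f) _) (le_of_eq ?_))
      ring
  obtain ⟨k, hk⟩ := hkey
  obtain ⟨q, hq0, P, hP⟩ := Lm_den hA1 f (k + 1) hk
  have h1 : ∃ s0 : ℕ, ∀ s ≥ s0, MvPolynomial.C (q.eval (s : ℂ)) * f ^ (s + k) =
      act P s (f ^ (s + (k + 1))) := by
    have h2 : jj (q • fp f k) = jj (acts f (k + 1) P) := by
      rw [← hP]
      exact map_smul jj q (fp f k)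
    exact (jj_eq_iff _ _).1 h2
  obtain ⟨s0, hs0⟩ := h1
  -- shift
  obtain ⟨-, ⟨L, hL⟩, -⟩ := hA3 (n := n) (R := ℂ)
  have hLk : ∀ (k : ℕ) (P : MvPolynomial (Sy n) ℂ), ∃ P' : MvPolynomial (Sy n) ℂ,
      ∀ (s : ℕ) (φ : MvPolynomial (Fin n) ℂ), act P' (s + k) φ = act P s φ := by
    intro k
    induction k with
    | zero => exact fun P => ⟨P, fun s φ => rfl⟩
    | succ k ih =>
      intro P
      obtain ⟨P', hP'⟩ := ih P
      exact ⟨L P', fun s φ => by rw [← add_assoc, hL, hP']⟩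
  obtain ⟨P', hP'⟩ := hLk k P
  have hb0 : q.comp (X - C (k : ℂ)) ≠ 0 := by
    intro h
    apply hq0
    have h2 : (q.comp (X - C (k : ℂ))).comp (X + C (k : ℂ)) = q := by
      rw [comp_assoc]
      simp
    rw [← h2, h, zero_comp]
  refine ⟨q.comp (X - C (k : ℂ)), hb0, P', ?_⟩
  have h3 : ∀ s ≥ s0 + k, MvPolynomial.C ((q.comp (X - C (k : ℂ))).eval (s : ℂ)) * f ^ s =
      act P' s (f ^ (s + 1)) := by
    intro s hs
    obtain ⟨t, rfl⟩ := Nat.exists_eq_add_of_le (le_trans (Nat.le_add_left k s0) hs)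
    have h4 := hs0 t (by omega)
    rw [add_comm k t, hP', eval_comp, eval_sub, eval_X, eval_C]
    push_cast
    rw [add_sub_cancel_right, h4, add_assoc]
  -- from large `s` to all `s`
  obtain ⟨Lf, hLf⟩ := hA2 f
  obtain ⟨d, w, hw⟩ := hA4 f (qs (q.comp (X - C (k : ℂ))) * 1 - Lf P')
  have hV : ∀ s : ℕ, act (qs (q.comp (X - C (k : ℂ))) * 1 - Lf P') s (f ^ s) =
      MvPolynomial.C ((q.comp (X - C (k : ℂ))).eval (s : ℂ)) * f ^ s - act P' s (f ^ (s + 1)) := by
    intro s
    rw [act_sub, act_qs hA1, (hA1 1 s (f ^ s)).1, hLf, ← pow_succ']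
  have hw0 : w = 0 := by
    refine Polynomial.eq_zero_of_infinite_isRoot w ?_
    have hinf : (Set.range fun s : ℕ => ((s + (s0 + k) : ℕ) : MvPolynomial (Fin n) ℂ)).Infinite := by
      refine Set.infinite_range_of_injective fun a b hab => ?_
      have := Nat.cast_injective (R := MvPolynomial (Fin n) ℂ) hab
      omega
    refine hinf.mono ?_
    rintro _ ⟨s, rfl⟩
    have h5 := hw (s + (s0 + k))
    rw [hV, h3 _ (by omega), sub_self, mul_zero] at h5
    exact (mul_eq_zero.1 h5.symm).resolve_right (pow_ne_zero _ hf)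
  intro s
  have h6 := hw s
  rw [hw0, eval_zero, zero_mul, hV] at h6
  exact sub_eq_zero.1 ((mul_eq_zero.1 h6).resolve_left (pow_ne_zero _ hf))

end

end Pool.Agent.W930.GN
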